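import Mathlib

set_option autoImplicit false

namespace Pool.Agent.W13

open Matrix

/-- The 15 x 15 block: the columns other than the distinguished one; the column 0 is the unit column. -/
def blkRows : Fin 15 → Fin 15 → ℤ :=
![![0, 1, 1, 0, 0, 0, 0, 1, 1, 0, 0, 1, 1, 1, 0],
  ![1, 0, 0, 0, 1, 0, 1, 1, 1, 0, 0, 1, 1, 0, 1],
  ![0, 1, 1, 0, 1, 0, 0, 1, 1, 1, 1, 0, 0, 0, 1],
  ![1, 0, 0, 1, 1, 1, 0, 1, 1, 0, 1, 1, 0, 1, 0],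
  ![0, 1, 1, 1, 1, 1, 0, 0, 0, 0, 1, 1, 1, 0, 1],
  ![0, 1, 0, 0, 1, 0, 1, 0, 1, 1, 1, 0, 1, 1, 0],
  ![1, 1, 0, 1, 0, 0, 1, 0, 1, 0, 1, 1, 0, 0, 0],
  ![0, 0, 1, 1, 1, 0, 1, 0, 1, 0, 0, 0, 0, 1, 0],
  ![0, 1, 0, 1, 0, 1, 1, 1, 1, 1, 0, 1, 0, 0, 0],
  ![1, 1, 1, 0, 0, 1, 1, 1, 0, 0, 0, 0, 0, 0, 0],
  ![0, 1, 0, 1, 0, 1, 1, 1, 0, 0, 1, 0, 1, 1, 1],
  ![1, 0, 1, 0, 0, 1, 0, 0, 1, 1, 0, 0, 1, 1, 1],
  ![0, 0, 1, 0, 0, 0, 1, 1, 0, 1, 1, 1, 0, 1, 0],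
  ![1, 1, 0, 0, 1, 0, 0, 0, 0, 1, 0, 1, 0, 1, 1],
  ![1, 0, 1, 1, 0, 0, 0, 1, 0, 1, 0, 0, 1, 0, 0]]

/-- The distinguished column. -/
def pcol : Fin 15 → ℤ := ![0, 0, 0, 0, 0, 1, 1, 1, 1, 0, 1, 1, 1, 0, 1]

/-- The kernel entries in the 15 own columns. -/
def kerv : Fin 15 → ℤ :=
  ![-1, 6550, -2413, -20748, 18047, 5430, -19588, 10022, -5897, -19736, -4283, 5399, -5692, -7969,
    -2290]

/-- An inverse modulo 5. -/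
def invRows : Fin 15 → Fin 15 → ℤ :=
![![1, 0, 3, 3, 1, 1, 3, 3, 2, 2, 3, 4, 1, 4, 0],
  ![0, 2, 1, 3, 4, 4, 2, 3, 4, 4, 4, 1, 2, 3, 0],
  ![0, 2, 4, 3, 3, 3, 1, 2, 2, 4, 0, 3, 1, 3, 4],
  ![0, 1, 4, 0, 2, 3, 0, 1, 0, 4, 3, 1, 3, 4, 0],
  ![3, 0, 3, 2, 1, 0, 2, 3, 4, 4, 1, 3, 1, 2, 2],
  ![3, 4, 0, 1, 3, 1, 3, 1, 0, 4, 1, 2, 1, 0, 1],
  ![3, 1, 2, 2, 3, 1, 3, 4, 0, 3, 3, 4, 1, 2, 0],
  ![3, 1, 0, 3, 1, 0, 3, 2, 2, 4, 4, 1, 4, 3, 0],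
  ![0, 3, 2, 3, 4, 4, 3, 0, 1, 0, 2, 0, 2, 4, 2],
  ![4, 0, 1, 3, 0, 0, 2, 2, 0, 2, 2, 3, 2, 4, 1],
  ![4, 0, 3, 4, 3, 0, 1, 2, 4, 3, 4, 2, 1, 3, 2],
  ![2, 3, 0, 0, 3, 2, 4, 2, 4, 4, 1, 3, 0, 0, 1],
  ![2, 1, 3, 3, 3, 3, 1, 0, 4, 4, 3, 3, 4, 2, 1],
  ![4, 3, 0, 0, 2, 4, 1, 1, 3, 0, 1, 4, 2, 0, 2],
  ![1, 2, 2, 4, 4, 4, 1, 1, 3, 4, 3, 2, 2, 3, 4]]

theorem blk_zero_one : ∀ i j, blkRows i j = 0 ∨ blkRows i j = 1 := by decide +kernel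

theorem pcol_zero_one : ∀ i, pcol i = 0 ∨ pcol i = 1 := by decide +kernel

theorem kerv_zero : kerv 0 = -1 := rfl

theorem blk_ker : ∀ i, (∑ j, blkRows i j * kerv j) + 38568 * pcol i = 0 := by decide +kernel

theorem inv_mul : ∀ i j, (∑ k, invRows i k * blkRows k j) % 5 = if i = j then 1 else 0 := by
  decide +kernel

theorem blk_det : (Matrix.of blkRows).det ≠ 0 := by
  intro h
  have h1 : (Matrix.of invRows * Matrix.of blkRows).det = 0 := by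
    rw [Matrix.det_mul, h, mul_zero]
  have h2 : ((Int.castRingHom (ZMod 5)).mapMatrix (Matrix.of invRows * Matrix.of blkRows)) = 1 := by
    ext i j
    have := inv_mul i j
    rw [RingHom.mapMatrix_apply, Matrix.map_apply, Matrix.mul_apply]
    simp only [Matrix.of_apply, eq_intCast]
    have h3 : (∑ k, invRows i k * blkRows k j) = (∑ k, invRows i k * blkRows k j) % 5
        + 5 * ((∑ k, invRows i k * blkRows k j) / 5) := (Int.emod_add_mul_ediv _ _).symm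
    rw [h3, this]
    have h5 : ((5 : ℤ) : ZMod 5) = 0 := by decide
    push_cast
    have h6 : (5 : ZMod 5) = 0 := by decide
    rw [h6, zero_mul, add_zero, Matrix.one_apply]
  have h3 := congrArg Matrix.det h2
  rw [← RingHom.map_det, h1, map_zero, Matrix.det_one] at h3
  exact absurd h3 (by decide)

end Pool.Agent.W13
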