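import Mathlib
import Pool.Agent.W13.Blk

set_option autoImplicit false

namespace Pool.Agent.W13

open Matrix

/-- The position of the distinguished column of block `i` : the unit column of block `i+1`, or the
extra column. Chain matrix: rows are pairs (block, row), columns are an extra column and the pairs
(block, own column). -/
def chainM (b : ℕ) (s : Fin b × Fin 15) : Option (Fin b × Fin 15) → ℤ
  | none => if (s.1 : ℕ) + 1 = b then pcol s.2 else 0
  | some t => if t.1 = s.1 then blkRows s.2 t.2
      else if (t.1 : ℕ) = (s.1 : ℕ) + 1 ∧ t.2 = 0 then pcol s.2 else 0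

/-- kernel vector of the chain matrix -/
def chainK (b : ℕ) : Option (Fin b × Fin 15) → ℤ
  | none => - (-38568) ^ b
  | some t => (-38568) ^ (t.1 : ℕ) * kerv t.2

theorem chainM_zero_one (b : ℕ) (s : Fin b × Fin 15) (t : Option (Fin b × Fin 15)) :
    chainM b s t = 0 ∨ chainM b s t = 1 := by
  cases t with
  | none =>
    simp only [chainM]
    by_cases h : (s.1 : ℕ) + 1 = b
    · rw [if_pos h]; exact pcol_zero_one _
    · rw [if_neg h]; left; rfl
  | some t =>
    simp only [chainM]
    by_cases h : t.1 = s.1
    · rw [if_pos h]; exact blk_zero_one _ _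
    · rw [if_neg h]
      by_cases h2 : (t.1 : ℕ) = (s.1 : ℕ) + 1 ∧ t.2 = 0
      · rw [if_pos h2]; exact pcol_zero_one _
      · rw [if_neg h2]; left; rfl

/-- The value in a row of the chain matrix against any vector. -/
theorem chainM_sum (b : ℕ) (s : Fin b × Fin 15) (w : Option (Fin b × Fin 15) → ℤ) :
    ∑ t, chainM b s t * w t = (∑ j, blkRows s.2 j * w (some (s.1, j)))
      + pcol s.2 * (if h : (s.1 : ℕ) + 1 < b then w (some (⟨(s.1 : ℕ) + 1, h⟩, 0)) else w none) := by
  rw [Fintype.sum_option, Fintype.sum_prod_type]
  have h1 : ∀ i : Fin b, ∑ j, chainM b s (some (i, j)) * w (some (i, j))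
      = (if i = s.1 then ∑ j, blkRows s.2 j * w (some (s.1, j)) else 0)
        + (if (i : ℕ) = (s.1 : ℕ) + 1 then pcol s.2 * w (some (i, 0)) else 0) := by
    intro i
    by_cases hi : i = s.1
    · subst hi
      simp [chainM]
    · by_cases hi2 : (i : ℕ) = (s.1 : ℕ) + 1
      · simp only [chainM, hi, hi2, if_false, true_and, if_true, zero_add]
        rw [Finset.sum_eq_single 0]
        · simp
        · intro j _ hj
          simp [hj]
        · simp
      · simp [chainM, hi, hi2]
  rw [Finset.sum_congr rfl (fun i _ => h1 i), Finset.sum_add_distrib]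
  rw [Finset.sum_ite_eq' Finset.univ s.1]
  simp only [Finset.mem_univ, if_true]
  by_cases h : (s.1 : ℕ) + 1 < b
  · rw [dif_pos h]
    rw [Finset.sum_eq_single (⟨(s.1 : ℕ) + 1, h⟩ : Fin b)]
    · have : ¬ ((s.1 : ℕ) + 1 = b) := by omega
      simp [chainM, this]
    · intro i _ hi
      rw [if_neg]
      intro h2
      exact hi (Fin.ext h2)
    · simp
  · rw [dif_neg h]
    have h3 : (s.1 : ℕ) + 1 = b := by have := s.1.2; omega
    have h4 : (∑ i : Fin b, if (i : ℕ) = (s.1 : ℕ) + 1 then pcol s.2 * w (some (i, 0)) else 0) = 0 := by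
      apply Finset.sum_eq_zero
      intro i _
      rw [if_neg]
      have := i.2
      omega
    rw [h4]
    simp only [chainM, h3, if_true]
    ring

theorem chainM_ker (b : ℕ) (s : Fin b × Fin 15) : ∑ t, chainM b s t * chainK b t = 0 := by
  rw [chainM_sum]
  have h1 : (if h : (s.1 : ℕ) + 1 < b then chainK b (some (⟨(s.1 : ℕ) + 1, h⟩, 0))
      else chainK b none) = - (-38568) ^ ((s.1 : ℕ) + 1) := by
    by_cases h : (s.1 : ℕ) + 1 < b
    · rw [dif_pos h]
      simp [chainK, kerv_zero]
    · rw [dif_neg h]
      have h3 : (s.1 : ℕ) + 1 = b := by have := s.1.2; omega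
      simp only [chainK, h3]
  rw [h1]
  have h2 := blk_ker s.2
  have h4 : ∑ j, blkRows s.2 j * chainK b (some (s.1, j))
      = (-38568) ^ (s.1 : ℕ) * ∑ j, blkRows s.2 j * kerv j := by
    rw [Finset.mul_sum]
    refine Finset.sum_congr rfl fun j _ => ?_
    simp only [chainK]; ring
  rw [h4, pow_succ]
  have h5 : ∑ j, blkRows s.2 j * kerv j = - (38568 * pcol s.2) := by linarith
  rw [h5]; ring

/-- A vector killed by the chain matrix which vanishes at the extra column vanishes. -/
theorem chain_inj (b : ℕ) (w : Option (Fin b × Fin 15) → ℤ)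
    (hw : ∀ s, ∑ t, chainM b s t * w t = 0) (h0 : w none = 0) : w = 0 := by
  have key : ∀ n : ℕ, ∀ i : Fin b, b ≤ (i : ℕ) + 1 + n → ∀ j, w (some (i, j)) = 0 := by
    intro n
    induction n with
    | zero =>
      intro i hi
      have h1 : Matrix.of blkRows *ᵥ (fun j => w (some (i, j))) = 0 := by
        ext r
        have := hw (i, r)
        rw [chainM_sum] at this
        have h2 : ¬ ((i : ℕ) + 1 < b) := by omega
        simp only [h2, dif_neg, not_false_iff, h0, mul_zero, add_zero] at this
        simpa [Matrix.mulVec, dotProduct] using this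
      have h2 := Matrix.eq_zero_of_mulVec_eq_zero blk_det h1
      intro j
      exact congrFun h2 j
    | succ n ih =>
      intro i hi
      have h1 : Matrix.of blkRows *ᵥ (fun j => w (some (i, j))) = 0 := by
        ext r
        have := hw (i, r)
        rw [chainM_sum] at this
        have h3 : (if h : (i : ℕ) + 1 < b then w (some (⟨(i : ℕ) + 1, h⟩, 0)) else w none) = 0 := by
          split_ifs with h
          · exact ih ⟨(i : ℕ) + 1, h⟩ (by simp only; omega) 0
          · exact h0
        simp only at this
        rw [h3, mul_zero, add_zero] at this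
        simpa [Matrix.mulVec, dotProduct] using this
      have h2 := Matrix.eq_zero_of_mulVec_eq_zero blk_det h1
      intro j
      exact congrFun h2 j
  ext t
  cases t with
  | none => exact h0
  | some t => exact key b t.1 (by omega) t.2

/-- The chain matrix with one more row `x`. -/
def chainG (b : ℕ) (x : Option (Fin b × Fin 15) → ℤ) :
    Matrix (Option (Fin b × Fin 15)) (Option (Fin b × Fin 15)) ℤ :=
  Matrix.of fun r => match r with
    | none => x
    | some s => chainM b s

theorem chainG_det_sub (b : ℕ) (x y : Option (Fin b × Fin 15) → ℤ) :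
    (chainG b (x - y)).det = (chainG b x).det - (chainG b y).det := by
  have h : ∀ z, chainG b z = (chainG b 0).updateRow none z := by
    intro z
    ext r c
    cases r with
    | none => simp [chainG, Matrix.updateRow_self]
    | some s => simp [chainG, Matrix.updateRow_ne]
  rw [h (x - y), h x, h y, sub_eq_add_neg, Matrix.det_updateRow_add]
  have : -y = (-1 : ℤ) • y := by simp
  rw [this, Matrix.det_updateRow_smul]
  ring

theorem chainG_det_eq_zero (b : ℕ) (x : Option (Fin b × Fin 15) → ℤ)
    (h : (chainG b x).det = 0) : ∑ t, x t * chainK b t = 0 := by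
  obtain ⟨v, hv, hvz⟩ := Matrix.exists_mulVec_eq_zero_iff.mpr h
  have h1 : ∀ s, ∑ t, chainM b s t * v t = 0 := by
    intro s
    have := congrFun hvz (some s)
    simpa [Matrix.mulVec, dotProduct, chainG] using this
  have h2 : ∑ t, x t * v t = 0 := by
    have := congrFun hvz none
    simpa [Matrix.mulVec, dotProduct, chainG] using this
  have h3 : v none ≠ 0 := by
    intro h0
    exact hv (chain_inj b v h1 h0)
  have h4 : (fun t => chainK b none * v t - v none * chainK b t) = 0 := by
    apply chain_inj b
    · intro s
      have : ∑ t, chainM b s t * (chainK b none * v t - v none * chainK b t)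
          = chainK b none * (∑ t, chainM b s t * v t) - v none * ∑ t, chainM b s t * chainK b t := by
        rw [Finset.mul_sum, Finset.mul_sum, ← Finset.sum_sub_distrib]
        refine Finset.sum_congr rfl fun t _ => ?_
        ring
      rw [this, h1, chainM_ker]; ring
    · ring
  have h5 : v none * ∑ t, x t * chainK b t = 0 := by
    have : v none * ∑ t, x t * chainK b t = chainK b none * ∑ t, x t * v t := by
      rw [Finset.mul_sum, Finset.mul_sum]
      refine Finset.sum_congr rfl fun t _ => ?_
      have := congrFun h4 t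
      simp only [Pi.zero_apply] at this
      linear_combination (-x t) * this
    rw [this, h2, mul_zero]
  exact (mul_eq_zero.mp h5).resolve_left h3

/-- base `-D` digits are unique -/
theorem negbase_inj (b : ℕ) (e : Fin b → ℤ) (he : ∀ i, |e i| < 38568)
    (h : ∑ i, e i * (-38568) ^ (i : ℕ) = 0) : ∀ i, e i = 0 := by
  induction b with
  | zero => intro i; exact i.elim0
  | succ b ih =>
    rw [Fin.sum_univ_succ] at h
    simp only [Fin.val_zero, pow_zero, mul_one, Fin.val_succ] at h
    have h1 : ∑ i : Fin b, e i.succ * (-38568) ^ ((i : ℕ) + 1)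
        = (-38568) * ∑ i : Fin b, e i.succ * (-38568) ^ (i : ℕ) := by
      rw [Finset.mul_sum]
      refine Finset.sum_congr rfl fun i _ => ?_
      rw [pow_succ]; ring
    rw [h1] at h
    have h2 : e 0 = 0 := by
      apply Int.eq_zero_of_abs_lt_dvd (m := 38568) _ (he 0)
      exact ⟨∑ i : Fin b, e i.succ * (-38568) ^ (i : ℕ), by linarith⟩
    have h3 : ∑ i : Fin b, e i.succ * (-38568) ^ (i : ℕ) = 0 := by
      rw [h2] at h; linarith
    have h4 := ih (fun i => e i.succ) (fun i => he i.succ) h3
    intro i
    refine Fin.cases h2 ?_ i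
    exact h4

end Pool.Agent.W13
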