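import Mathlib
import Pool.Agent.W13.Chain

set_option autoImplicit false

namespace Pool.Agent.W13

open Matrix

/-- The set of normalised determinants. -/
def detSet (n : ℕ) : Set ℤ := {d : ℤ | ∃ M : Matrix (Fin n) (Fin n) ℤ,
            (∀ i j, M i j = 1 ∨ M i j = -1) ∧ M.det = 2 ^ (n - 1) * d}

theorem detSet_finite (n : ℕ) : (detSet n).Finite := by
  have h1 : Set.Finite (Set.pi Set.univ
      (fun _ : Fin n => Set.pi Set.univ (fun _ : Fin n => ({1, -1} : Set ℤ)))) := by
    apply Set.Finite.pi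
    intro i
    apply Set.Finite.pi
    intro j
    exact Set.toFinite _
  refine (h1.image (fun M => (Matrix.of M).det / 2 ^ (n - 1))).subset ?_
  rintro d ⟨M, hM, hd⟩
  refine ⟨fun i j => M i j, ?_, ?_⟩
  · intro i _ j _
    simpa using hM i j
  · show (Matrix.of fun i j => M i j).det / 2 ^ (n - 1) = d
    have : (Matrix.of fun i j => M i j) = M := rfl
    rw [this, hd]
    exact Int.mul_ediv_cancel_left _ (by positivity)

/-- the vector produced by the digits -/
def digVec (b : ℕ) (d : Fin b → ℕ) : Option (Fin b × Fin 15) → ℤ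
  | none => 0
  | some t => if t.2 = 0 then (d t.1 : ℤ) else 0

/-- the 0-1 block with prescribed column sums -/
def digBlk (b k : ℕ) (d : Fin b → ℕ) (l : Fin k) : Option (Fin b × Fin 15) → ℤ
  | none => 0
  | some t => if t.2 = 0 ∧ (l : ℕ) < d t.1 then 1 else 0

theorem digBlk_sum (b k : ℕ) (d : Fin b → ℕ) (hd : ∀ i, d i ≤ k) (t : Option (Fin b × Fin 15)) :
    ∑ l, digBlk b k d l t = digVec b d t := by
  cases t with
  | none => simp [digBlk, digVec]
  | some t =>
    by_cases h : t.2 = 0
    · simp only [digBlk, digVec, h, true_and, if_true]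
      rw [Finset.sum_boole]
      have : (Finset.univ.filter (fun l : Fin k => (l : ℕ) < d t.1)).card = d t.1 := by
        rw [Fin.card_filter_val_lt]
        exact min_eq_right (hd t.1)
      rw [this]
    · simp [digBlk, digVec, h]

/-- the 0-1 matrix -/
def bigF (b k : ℕ) (d : Fin b → ℕ) :
    Matrix (Option (Fin b × Fin 15) ⊕ Fin k) (Option (Fin b × Fin 15) ⊕ Fin k) ℤ :=
  Matrix.fromBlocks (chainG b 0) (Matrix.of fun r _ => if r = none then 1 else 0)
    (Matrix.of fun l t => digBlk b k d l t) 1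

theorem bigF_zero_one (b k : ℕ) (d : Fin b → ℕ) (i j) : bigF b k d i j = 0 ∨ bigF b k d i j = 1 := by
  rcases i with (i | i) <;> rcases j with (j | j)
  · simp only [bigF, Matrix.fromBlocks_apply₁₁]
    cases i with
    | none => left; simp [chainG]
    | some s => simpa [chainG] using chainM_zero_one b s j
  · simp only [bigF, Matrix.fromBlocks_apply₁₂, Matrix.of_apply]
    by_cases h : i = none
    · right; rw [if_pos h]
    · left; rw [if_neg h]
  · simp only [bigF, Matrix.fromBlocks_apply₂₁, Matrix.of_apply]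
    cases j with
    | none => left; rfl
    | some s =>
      simp only [digBlk]
      by_cases h : s.2 = 0 ∧ (i : ℕ) < d s.1
      · right; rw [if_pos h]
      · left; rw [if_neg h]
  · simp only [bigF, Matrix.fromBlocks_apply₂₂, Matrix.one_apply]
    by_cases h : i = j
    · right; rw [if_pos h]
    · left; rw [if_neg h]

theorem bigF_det (b k : ℕ) (d : Fin b → ℕ) (hd : ∀ i, d i ≤ k) :
    (bigF b k d).det = (chainG b (- digVec b d)).det := by
  rw [bigF, Matrix.det_fromBlocks_one₂₂]
  congr 1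
  ext r c
  rw [Matrix.sub_apply, Matrix.mul_apply]
  cases r with
  | none =>
    simp only [chainG, Matrix.of_apply, if_true, one_mul, Pi.zero_apply, Pi.neg_apply]
    rw [digBlk_sum b k d hd]
    ring
  | some s =>
    simp [chainG]

/-- the ±1 matrix -/
def bigH (b k : ℕ) (d : Fin b → ℕ) :
    Matrix (Unit ⊕ (Option (Fin b × Fin 15) ⊕ Fin k)) (Unit ⊕ (Option (Fin b × Fin 15) ⊕ Fin k)) ℤ :=
  Matrix.fromBlocks 1 (Matrix.of fun _ _ => 1) (Matrix.of fun _ _ => 1)
    (Matrix.of fun i j => 1 - 2 * bigF b k d i j)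

theorem bigH_pm (b k : ℕ) (d : Fin b → ℕ) (i j) : bigH b k d i j = 1 ∨ bigH b k d i j = -1 := by
  rcases i with (i | i) <;> rcases j with (j | j)
  · left
    simp [bigH]
  · left
    simp [bigH]
  · left
    simp [bigH]
  · simp only [bigH, Matrix.fromBlocks_apply₂₂, Matrix.of_apply]
    rcases bigF_zero_one b k d i j with h | h <;> rw [h]
    · left; norm_num
    · right; norm_num

theorem bigH_det (b k : ℕ) (d : Fin b → ℕ) :
    (bigH b k d).det = (-2) ^ (15 * b + 1 + k) * (bigF b k d).det := by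
  rw [bigH, Matrix.det_fromBlocks_one₁₁]
  have : (Matrix.of fun i j => 1 - 2 * bigF b k d i j) -
      (Matrix.of fun (_ : Option (Fin b × Fin 15) ⊕ Fin k) (_ : Unit) => (1 : ℤ)) *
        (Matrix.of fun (_ : Unit) (_ : Option (Fin b × Fin 15) ⊕ Fin k) => (1 : ℤ))
      = (-2 : ℤ) • bigF b k d := by
    ext i j
    rw [Matrix.sub_apply, Matrix.mul_apply, Matrix.smul_apply]
    simp
  rw [this, Matrix.det_smul]
  congr 2
  simp only [Fintype.card_sum, Fintype.card_option, Fintype.card_prod, Fintype.card_fin]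
  ring

theorem mem_detSet (b k n : ℕ) (hn : n = 15 * b + 2 + k) (d : Fin b → ℕ) :
    (-1) ^ (15 * b + 1 + k) * (bigF b k d).det ∈ detSet n := by
  have hc : Fintype.card (Unit ⊕ (Option (Fin b × Fin 15) ⊕ Fin k)) = n := by
    simp only [Fintype.card_sum, Fintype.card_option, Fintype.card_prod, Fintype.card_fin,
      Fintype.card_unit]
    omega
  let e := Fintype.equivFinOfCardEq hc
  refine ⟨Matrix.reindex e e (bigH b k d), ?_, ?_⟩
  · intro i j
    rw [Matrix.reindex_apply, Matrix.submatrix_apply]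
    exact bigH_pm _ _ _ _ _
  · rw [Matrix.det_reindex_self, bigH_det]
    have : n - 1 = 15 * b + 1 + k := by omega
    rw [this, neg_pow]
    ring

theorem inj_detSet (b k : ℕ) (d d' : Fin b → ℕ) (hd : ∀ i, d i ≤ k) (hd' : ∀ i, d' i ≤ k)
    (h1 : ∀ i, d i < 38568) (h2 : ∀ i, d' i < 38568)
    (h : (-1) ^ (15 * b + 1 + k) * (bigF b k d).det = (-1) ^ (15 * b + 1 + k) * (bigF b k d').det) :
    d = d' := by
  have h0 : ((-1 : ℤ) ^ (15 * b + 1 + k)) ≠ 0 := pow_ne_zero _ (by norm_num)
  have h3 := mul_left_cancel₀ h0 h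
  rw [bigF_det b k d hd, bigF_det b k d' hd'] at h3
  have h4 : (chainG b (- digVec b d - - digVec b d')).det = 0 := by
    rw [chainG_det_sub, h3, sub_self]
  have h5 := chainG_det_eq_zero b _ h4
  rw [Fintype.sum_option, Fintype.sum_prod_type] at h5
  have h6 : ∀ i : Fin b, ∑ j : Fin 15, (- digVec b d - - digVec b d') (some (i, j)) *
      chainK b (some (i, j)) = ((d i : ℤ) - d' i) * (-38568) ^ (i : ℕ) := by
    intro i
    rw [Finset.sum_eq_single 0]
    · simp only [Pi.sub_apply, Pi.neg_apply, digVec, if_true, chainK, kerv_zero]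
      ring
    · intro j _ hj
      simp [digVec, hj]
    · simp
  rw [Finset.sum_congr rfl (fun i _ => h6 i)] at h5
  simp only [Pi.sub_apply, Pi.neg_apply, digVec, neg_zero, sub_zero, zero_mul, zero_add] at h5
  have h7 := negbase_inj b (fun i => (d i : ℤ) - d' i) (fun i => by
    have := h1 i
    have := h2 i
    rw [abs_lt]
    constructor <;> omega) h5
  funext i
  have := h7 i
  omega

theorem card_detSet (b k n : ℕ) (hn : n = 15 * b + 2 + k) (hk : b = 0 ∨ 38568 ≤ k) :
    38568 ^ b ≤ (detSet n).ncard := by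
  let f : (Fin b → Fin 38568) → ℤ :=
    fun d => (-1) ^ (15 * b + 1 + k) * (bigF b k (fun i => (d i : ℕ))).det
  have hf : Function.Injective f := by
    intro d d' h
    have hle : ∀ (d : Fin b → Fin 38568) (i : Fin b), (d i : ℕ) ≤ k := by
      intro d i
      rcases hk with hk | hk
      · subst hk; exact i.elim0
      · have := (d i).2
        omega
    have := inj_detSet b k (fun i => (d i : ℕ)) (fun i => (d' i : ℕ)) (hle d) (hle d')
      (fun i => (d i).2) (fun i => (d' i).2) h
    funext i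
    exact Fin.ext (congrFun this i)
  have h1 : Set.range f ⊆ detSet n := by
    rintro _ ⟨d, rfl⟩
    exact mem_detSet b k n hn _
  have h2 := Set.ncard_le_ncard h1 (detSet_finite n)
  have h3 : (Set.range f).ncard = 38568 ^ b := by
    rw [← Set.image_univ, Set.ncard_image_of_injective _ hf, Set.ncard_univ]
    simp
  rw [h3] at h2
  exact h2

theorem main_bound (n : ℕ) (hn : 1 ≤ n) : 2 ^ n ≤ 2 ^ (38568 + 17) * (detSet n).ncard := by
  by_cases h1 : n = 1
  · subst h1
    have h2 : (1 : ℤ) ∈ detSet 1 := by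
      refine ⟨Matrix.of fun _ _ => 1, fun _ _ => Or.inl rfl, ?_⟩
      rw [Matrix.det_fin_one]
      norm_num
    have h3 : 1 ≤ (detSet 1).ncard := by
      rw [Nat.one_le_iff_ne_zero, Ne, Set.ncard_eq_zero (detSet_finite 1)]
      intro h
      rw [h] at h2
      exact h2
    calc 2 ^ 1 ≤ 2 ^ (38568 + 17) * 1 := by
          rw [mul_one]; exact Nat.pow_le_pow_right (by norm_num) (by norm_num)
      _ ≤ _ := Nat.mul_le_mul_left _ h3
  · by_cases h2 : n < 38568 + 17
    · have h3 := card_detSet 0 (n - 2) n (by omega) (Or.inl rfl)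
      rw [pow_zero] at h3
      calc 2 ^ n ≤ 2 ^ (38568 + 17) * 1 := by
            rw [mul_one]; exact Nat.pow_le_pow_right (by norm_num) (by omega)
        _ ≤ _ := Nat.mul_le_mul_left _ h3
    · obtain ⟨b, r, hr, hb⟩ : ∃ b r, r < 15 ∧ n - (38568 + 2) = 15 * b + r :=
        ⟨(n - (38568 + 2)) / 15, (n - (38568 + 2)) % 15, Nat.mod_lt _ (by norm_num),
          (Nat.div_add_mod _ _).symm⟩
      have h3 := card_detSet b (38568 + r) n (by omega) (Or.inr (by omega))
      have h4 : 2 ^ (15 * b) ≤ 38568 ^ b := by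
        rw [pow_mul]
        exact Nat.pow_le_pow_left (by norm_num) b
      calc 2 ^ n ≤ 2 ^ ((38568 + 17) + 15 * b) := Nat.pow_le_pow_right (by norm_num) (by omega)
        _ = 2 ^ (38568 + 17) * 2 ^ (15 * b) := by rw [pow_add]
        _ ≤ 2 ^ (38568 + 17) * (detSet n).ncard := Nat.mul_le_mul_left _ (h4.trans h3)

end Pool.Agent.W13
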